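import Pool.Agent.Run7.h400.GK.StmA
import Pool.Agent.Run7.h400.GK.StmK

/-!
# Piece OFA of the project GK: the ring of integers of the Carlitz cyclotomic field
-/

set_option autoImplicit false
set_option linter.unusedSectionVars false

namespace Run7.h781.GK

open Run7.h400.GK Polynomial Finset

section phi

variable {A : Type} [CommRing A] [IsDomain A]

/-- `C_w(X) / X`. -/
noncomputable def Ph (q d : ℕ) (cc : ℕ → A) : A[X] :=
  X ^ (q ^ d - 1) + ∑ i ∈ range d, C (cc i) * X ^ (q ^ i - 1)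

variable {q d : ℕ} {cc : ℕ → A}

lemma pow_lt' (hq : 2 ≤ q) {i : ℕ} (hi : i < d) : q ^ i - 1 < q ^ d - 1 := by
  have h1 : q ^ i < q ^ d := Nat.pow_lt_pow_right hq hi
  have h2 : 1 ≤ q ^ i := Nat.one_le_pow _ _ (by omega)
  omega

lemma deg_lt (hq : 2 ≤ q) : (∑ i ∈ range d, C (cc i) * X ^ (q ^ i - 1) : A[X]).degree <
    ((q ^ d - 1 : ℕ) : WithBot ℕ) := by
  rw [← mem_degreeLT]
  refine Submodule.sum_mem _ fun i hi => ?_
  rw [mem_degreeLT]
  refine (degree_C_mul_X_pow_le _ _).trans_lt ?_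
  exact_mod_cast pow_lt' hq (mem_range.1 hi)

lemma Ph_monic (hq : 2 ≤ q) : (Ph q d cc).Monic := monic_X_pow_add (deg_lt hq)

lemma Ph_natDegree (hq : 2 ≤ q) : (Ph q d cc).natDegree = q ^ d - 1 := by
  unfold Ph
  rw [natDegree_add_eq_left_of_degree_lt, natDegree_X_pow]
  rw [degree_X_pow]
  exact deg_lt hq

lemma Ph_coeff {n : ℕ} (hn : n < q ^ d - 1) : (Ph q d cc).coeff n =
    ∑ i ∈ range d, if n = q ^ i - 1 then cc i else 0 := by
  unfold Ph
  rw [coeff_add, coeff_X_pow, if_neg (by omega), zero_add, finsetSum_coeff]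
  refine Finset.sum_congr rfl fun i _ => ?_
  rw [coeff_C_mul_X_pow]

lemma Ph_coeff_zero (hq : 2 ≤ q) (hd : 1 ≤ d) : (Ph q d cc).coeff 0 = cc 0 := by
  have h0 : 0 < q ^ d - 1 := by
    have := pow_lt' (d := d) hq (i := 0) (by omega)
    omega
  rw [Ph_coeff h0, Finset.sum_eq_single 0]
  · simp
  · intro i _ hi
    rw [if_neg]
    have h1 : 2 ≤ q ^ i := hq.trans (Nat.le_self_pow hi q)
    omega
  · intro h
    exact absurd (mem_range.2 (by omega)) h

lemma X_mul_Ph (hq : 2 ≤ q) : X * Ph q d cc = X ^ (q ^ d) + ∑ i ∈ range d, C (cc i) * X ^ (q ^ i) := by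
  have h : ∀ i : ℕ, (X : A[X]) * X ^ (q ^ i - 1) = X ^ (q ^ i) := by
    intro i
    have h2 : 1 ≤ q ^ i := Nat.one_le_pow _ _ (by omega)
    rw [← pow_succ']
    congr 1
    omega
  unfold Ph
  rw [mul_add, h, Finset.mul_sum]
  congr 1
  refine Finset.sum_congr rfl fun i _ => ?_
  rw [mul_left_comm, h]

lemma Ph_deriv (hq : 2 ≤ q) (hd : 1 ≤ d) (h0 : (q : A) = 0) :
    Ph q d cc + X * derivative (Ph q d cc) = C (cc 0) := by
  have h1 : derivative (X * Ph q d cc) = Ph q d cc + X * derivative (Ph q d cc) := by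
    rw [derivative_mul, derivative_X, one_mul]
  rw [← h1, X_mul_Ph hq, derivative_add, derivative_X_pow, derivative_sum]
  have hqp : ∀ i : ℕ, i ≠ 0 → ((q ^ i : ℕ) : A) = 0 := by
    intro i hi
    rw [Nat.cast_pow, h0, zero_pow hi]
  rw [hqp d (by omega), C_0, zero_mul, zero_add, Finset.sum_eq_single 0]
  · simp
  · intro i _ hi
    rw [derivative_C_mul_X_pow, hqp i hi, mul_zero, C_0, zero_mul]
  · intro h
    exact absurd (mem_range.2 (by omega)) h

lemma Ph_eisenstein (hq : 2 ≤ q) (hd : 1 ≤ d) (hp : Prime (cc 0)) (hc : ∀ i < d, cc 0 ∣ cc i) :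
    (Ph q d cc).IsEisensteinAt (Ideal.span {cc 0}) where
  leading := by
    rw [(Ph_monic hq).leadingCoeff]
    intro h
    exact hp.not_isUnit (isUnit_of_dvd_one (Ideal.mem_span_singleton.1 h))
  mem := by
    intro n hn
    rw [Ph_natDegree hq] at hn
    rw [Ph_coeff hn, Ideal.mem_span_singleton]
    refine Finset.dvd_sum fun i hi => ?_
    split_ifs
    · exact hc i (mem_range.1 hi)
    · exact dvd_zero _
  notMem := by
    rw [Ph_coeff_zero hq hd, Ideal.span_singleton_pow, Ideal.mem_span_singleton]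
    intro h
    obtain ⟨c, hc⟩ := h
    have h1 : cc 0 * 1 = cc 0 * (cc 0 * c) := by
      rw [mul_one, ← mul_assoc, ← pow_two]
      exact hc
    have h2 := mul_left_cancel₀ hp.ne_zero h1
    exact hp.not_isUnit (isUnit_of_dvd_one ⟨c, h2⟩)

end phi

section gen

variable {A K F : Type} [CommRing A] [IsDomain A] [IsIntegrallyClosed A] [Field K] [Field F]
  [Algebra A K] [IsFractionRing A K] [Algebra A F] [Algebra K F] [IsScalarTower A K F]

/-- An integral element whose norm is a unit has an integral inverse. -/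
theorem integral_inv [FiniteDimensional K F] [IsGalois K F] {x : F} (hx : IsIntegral A x) (c : A)
    (hc : Algebra.norm K x * algebraMap A K c = 1) : IsIntegral A x⁻¹ := by
  classical
  have h1 := Algebra.norm_eq_prod_automorphisms K x
  rw [← Finset.mul_prod_erase _ _ (Finset.mem_univ (1 : F ≃ₐ[K] F))] at h1
  have h2 : x * ((∏ σ ∈ Finset.univ.erase (1 : F ≃ₐ[K] F), σ x) * algebraMap A F c) = 1 := by
    have h3 : (1 : F ≃ₐ[K] F) x = x := rfl
    rw [h3] at h1
    rw [← mul_assoc, ← h1, IsScalarTower.algebraMap_apply A K F c, ← map_mul, hc, map_one]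
  rw [← eq_inv_of_mul_eq_one_right h2]
  refine IsIntegral.mul ?_ isIntegral_algebraMap
  refine IsIntegral.prod _ fun σ _ => ?_
  exact hx.map (σ.toAlgHom.restrictScalars A)

end gen

section iter

variable {A F : Type} [CommRing A] [Field F] [Algebra A F]

theorem iter_int {lm : F} (hint : IsIntegral A lm) (T : A) {q : ℕ} (hq : 1 ≤ q) (i : ℕ) :
    ∃ s : F, IsIntegral A s ∧
      (fun y : F => algebraMap A F T * y + y ^ q)^[i] lm = lm * s := by
  induction i with
  | zero => exact ⟨1, isIntegral_one, by simp⟩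
  | succ i ih =>
    obtain ⟨s, hs, h⟩ := ih
    refine ⟨algebraMap A F T * s + lm ^ (q - 1) * s ^ q,
      (isIntegral_algebraMap.mul hs).add ((hint.pow _).mul (hs.pow _)), ?_⟩
    rw [Function.iterate_succ_apply', h, mul_pow, mul_add]
    have h1 : lm ^ q = lm * lm ^ (q - 1) := by
      rw [← pow_succ']
      congr 1
      omega
    rw [h1]
    ring

end iter

theorem t_OFA : S_CAR → S_CAL → S_FRB → S_TOR → S_GAL → S_OFA := by
  intro hCAR _ _ _ hGAL Fq E F _ _ _ _ _ _ _ _ _ w θ p q d lm hD hC hp hpq hQ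
  classical
  have hq2 : 2 ≤ q := by
    rw [hD.hq]
    exact Fintype.one_lt_card
  have hd := hD.hd1
  obtain ⟨cc, hcc0, hccd, hccw, hcact⟩ := hCAR Fq w q d hD.hq hD.irr hD.monic hD.deg
  obtain ⟨hfd, hgal, -, -⟩ := hGAL Fq E F w θ q d lm hD hC
  have hwp : Prime w := hD.irr.prime
  have hw0 : w ≠ 0 := hwp.ne_zero
  have hinjK : Function.Injective (algebraMap Fq[X] (RatFunc Fq)) := IsFractionRing.injective _ _
  have hinjF : Function.Injective (algebraMap Fq[X] F) := by
    rw [IsScalarTower.algebraMap_eq Fq[X] (RatFunc Fq) F]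
    exact (algebraMap (RatFunc Fq) F).injective.comp hinjK
  have hwF : algebraMap Fq[X] F w ≠ 0 := fun h => hw0 (hinjF (h.trans (map_zero _).symm))
  have hq0 : ((q : ℕ) : Fq[X]) = 0 := by
    have h1 : ((q : ℕ) : Fq) = 0 := by
      rw [hD.hq]
      exact FiniteField.cast_card_eq_zero Fq
    rw [← map_natCast (C : Fq →+* Fq[X]), h1, map_zero]
  have hlm := hC.ne
  -- the root
  have hsum : lm * aeval lm (Ph q d cc) = cact q w lm := by
    have h1 : aeval lm (X * Ph q d cc) = lm * aeval lm (Ph q d cc) := by rw [map_mul, aeval_X]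
    rw [← h1, X_mul_Ph hq2, hcact F lm, Finset.sum_range_succ, hccd, map_one, one_mul, map_add,
      map_sum, map_pow, aeval_X, add_comm]
    congr 1
    refine Finset.sum_congr rfl fun i _ => ?_
    rw [map_mul, aeval_C, map_pow, aeval_X]
  have hroot : aeval lm (Ph q d cc) = 0 := by
    rw [hC.tor] at hsum
    exact (mul_eq_zero.1 hsum).resolve_left hlm
  have hint : IsIntegral Fq[X] lm := ⟨Ph q d cc, Ph_monic hq2, by rw [← aeval_def]; exact hroot⟩
  have hei : (Ph q d cc).IsEisensteinAt (Ideal.span {w}) := by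
    have h1 := Ph_eisenstein (cc := cc) hq2 hd (by rw [hcc0]; exact hwp)
      (fun i hi => by rw [hcc0]; exact hccw i hi)
    rwa [hcc0] at h1
  have hndeg : (Ph q d cc).natDegree = q ^ d - 1 := Ph_natDegree hq2
  have hirr : Irreducible (Ph q d cc) := by
    refine hei.irreducible ((Ideal.span_singleton_prime hw0).2 hwp) (Ph_monic hq2).isPrimitive ?_
    rw [hndeg]
    omega
  have hmin : minpoly Fq[X] lm = Ph q d cc := by
    have h1 : Irreducible ((Ph q d cc).map (algebraMap Fq[X] (RatFunc Fq))) :=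
      ((Ph_monic hq2).irreducible_iff_irreducible_map_fraction_map).1 hirr
    have h2 : (Ph q d cc).map (algebraMap Fq[X] (RatFunc Fq)) = minpoly (RatFunc Fq) lm :=
      minpoly.eq_of_irreducible_of_monic h1 (by rw [aeval_map_algebraMap]; exact hroot)
        ((Ph_monic hq2).map _)
    have h3 := minpoly.isIntegrallyClosed_eq_field_fractions' (RatFunc Fq) hint
    rw [← h2] at h3
    exact (map_injective _ hinjK h3).symm
  have hminK : minpoly (RatFunc Fq) lm = (Ph q d cc).map (algebraMap Fq[X] (RatFunc Fq)) := by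
    rw [minpoly.isIntegrallyClosed_eq_field_fractions' (RatFunc Fq) hint, hmin]
  have hadj : Algebra.adjoin (RatFunc Fq) {lm} = ⊤ := by
    have h1 := IntermediateField.adjoin_simple_toSubalgebra_of_isAlgebraic
      (IsAlgebraic.of_finite (RatFunc Fq) lm)
    rw [hC.gen] at h1
    rw [← h1]
    rfl
  let pb : PowerBasis (RatFunc Fq) F := PowerBasis.ofAdjoinEqTop
    (Algebra.IsIntegral.isIntegral (R := RatFunc Fq) lm) hadj
  have hpb : pb.gen = lm := by simp [pb]
  have hpbd : pb.dim = q ^ d - 1 := by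
    rw [← pb.natDegree_minpoly, hpb, hminK, natDegree_map_eq_of_injective hinjK, hndeg]
  have hfr : Module.finrank (RatFunc Fq) F = q ^ d - 1 := by rw [pb.finrank, hpbd]
  have hnlm : Algebra.norm (RatFunc Fq) lm =
      (-1) ^ (q ^ d - 1) * algebraMap Fq[X] (RatFunc Fq) w := by
    have h1 := Algebra.PowerBasis.norm_gen_eq_coeff_zero_minpoly pb
    rw [hpb, hpbd, hminK, coeff_map, Ph_coeff_zero hq2 hd, hcc0] at h1
    exact h1
  -- derivative
  have hder : lm * aeval lm (derivative (minpoly (RatFunc Fq) lm)) = algebraMap Fq[X] F w := by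
    have h1 := congrArg (aeval lm) (Ph_deriv (cc := cc) hq2 hd hq0)
    rw [map_add, hroot, zero_add, map_mul, aeval_X, aeval_C, hcc0] at h1
    rw [hminK, derivative_map, aeval_map_algebraMap]
    exact h1
  have hδ : aeval lm (derivative (minpoly (RatFunc Fq) lm)) ≠ 0 := by
    intro h
    rw [h, mul_zero] at hder
    exact hwF hder.symm
  have hO : ∀ x : F, IsIntegral Fq[X] x → x ∈ Algebra.adjoin Fq[X] {lm} := by
    intro x hx
    have h1 : x ∈ (Algebra.traceForm (RatFunc Fq) F).dualSubmodule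
        (Subalgebra.toSubmodule (Algebra.adjoin Fq[X] {lm})) := by
      rw [LinearMap.BilinForm.mem_dualSubmodule]
      intro y hy
      have hy' : IsIntegral Fq[X] y :=
        adjoin_le_integralClosure hint hy
      have h2 : IsIntegral Fq[X] (Algebra.trace (RatFunc Fq) F (x * y)) :=
        Algebra.isIntegral_trace (hx.mul hy')
      obtain ⟨a, ha⟩ := IsIntegrallyClosed.isIntegral_iff.1 h2
      rw [Algebra.traceForm_apply, Submodule.mem_one]
      exact ⟨a, ha⟩
    rw [traceForm_dualSubmodule_adjoin Fq[X] (RatFunc Fq) hadj hint] at h1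
    obtain ⟨y, hy, hxy⟩ := Set.mem_smul_set.1 h1
    have h2 : w • x = lm * y := by
      rw [← hxy, Algebra.smul_def, ← hder, smul_eq_mul]
      field_simp
    have h3 : w • x ∈ Algebra.adjoin Fq[X] ({lm} : Set F) := by
      rw [h2]
      exact Subalgebra.mul_mem _ (Algebra.subset_adjoin rfl) hy
    have h4 := mem_adjoin_of_smul_prime_smul_of_minpoly_isEisensteinAt (R := Fq[X])
      (K := RatFunc Fq) (B := pb) (p := w) hwp (by rw [hpb]; exact hint) hx
      (by rw [hpb]; exact h3) (by rw [hpb, hmin]; exact hei)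
    rwa [hpb] at h4
  -- the unit
  choose! c' hc' using hccw
  let η : F := - ∑ i ∈ range d, algebraMap Fq[X] F (c' i) * lm ^ (q ^ i - 1)
  have hη : lm ^ (q ^ d - 1) = algebraMap Fq[X] F w * η := by
    have h1 : aeval lm (Ph q d cc) = lm ^ (q ^ d - 1) +
        ∑ i ∈ range d, algebraMap Fq[X] F (cc i) * lm ^ (q ^ i - 1) := by
      unfold Ph
      rw [map_add, map_sum, map_pow, aeval_X]
      congr 1
      refine Finset.sum_congr rfl fun i _ => ?_
      rw [map_mul, aeval_C, map_pow, aeval_X]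
    rw [hroot] at h1
    have h2 : ∑ i ∈ range d, algebraMap Fq[X] F (cc i) * lm ^ (q ^ i - 1) =
        algebraMap Fq[X] F w * ∑ i ∈ range d, algebraMap Fq[X] F (c' i) * lm ^ (q ^ i - 1) := by
      rw [Finset.mul_sum]
      refine Finset.sum_congr rfl fun i hi => ?_
      rw [hc' i (mem_range.1 hi), map_mul, mul_assoc]
    rw [h2] at h1
    simp only [η, mul_neg]
    linear_combination -h1
  have hηint : IsIntegral Fq[X] η := by
    refine IsIntegral.neg (IsIntegral.sum _ fun i _ => ?_)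
    exact isIntegral_algebraMap.mul (hint.pow _)
  have hη0 : η ≠ 0 := by
    intro h
    rw [h, mul_zero] at hη
    exact pow_ne_zero _ hlm hη
  have hηinv : IsIntegral Fq[X] η⁻¹ := by
    refine integral_inv (K := RatFunc Fq) hηint ((-1) ^ ((q ^ d - 1) * (q ^ d - 1))) ?_
    have h1 := congrArg (Algebra.norm (RatFunc Fq)) hη
    rw [map_pow, map_mul, hnlm, IsScalarTower.algebraMap_apply Fq[X] (RatFunc Fq) F w,
      Algebra.norm_algebraMap, hfr, mul_pow, ← pow_mul] at h1
    have hwK : algebraMap Fq[X] (RatFunc Fq) w ^ (q ^ d - 1) ≠ 0 :=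
      pow_ne_zero _ fun h => hw0 (hinjK (h.trans (map_zero _).symm))
    have h2 : Algebra.norm (RatFunc Fq) η = (-1) ^ ((q ^ d - 1) * (q ^ d - 1)) := by
      apply mul_left_cancel₀ hwK
      rw [← h1, mul_comm]
    rw [h2, map_pow, map_neg, map_one, ← mul_pow, neg_mul_neg, one_mul, one_pow]
  have hε : algebraMap Fq[X] F w = lm ^ (q ^ d - 1) * η⁻¹ := by
    rw [hη, mul_assoc, mul_inv_cancel₀ hη0, mul_one]
  -- `λ O ∩ A = w A`
  have hdvd : ∀ (a : Fq[X]) (s : F), IsIntegral Fq[X] s → algebraMap Fq[X] F a = lm * s → w ∣ a := by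
    intro a s hs h
    have h1 := congrArg (Algebra.norm (RatFunc Fq)) h
    rw [map_mul, hnlm, IsScalarTower.algebraMap_apply Fq[X] (RatFunc Fq) F a,
      Algebra.norm_algebraMap, hfr] at h1
    obtain ⟨c, hc⟩ := IsIntegrallyClosed.isIntegral_iff.1
      (Algebra.isIntegral_norm (RatFunc Fq) hs)
    have h2 : a ^ (q ^ d - 1) = w * ((-1) ^ (q ^ d - 1) * c) := by
      apply hinjK
      rw [map_pow, h1, ← hc]
      simp only [map_mul, map_pow, map_neg, map_one]
      ring
    exact hwp.dvd_of_dvd_pow ⟨_, h2⟩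
  refine ⟨hint, hO, ⟨η⁻¹, inv_ne_zero hη0, hηinv, by rwa [inv_inv], hε⟩, ?_, ?_, ?_⟩
  · intro z
    unfold tz cact
    rw [Polynomial.sum, Finset.sum_div]
    refine IsIntegral.sum _ fun i _ => ?_
    obtain ⟨s, hs, h⟩ := iter_int hint (X : Fq[X]) (q := q) (by omega) i
    rw [h, mul_left_comm, mul_div_cancel_left₀ _ hlm]
    exact isIntegral_algebraMap.mul hs
  · intro y hy
    have hup : (lm * y) ^ p = lm * (lm ^ (p - 1) * y ^ p) := by
      rw [mul_pow, ← mul_assoc, ← pow_succ']
      congr 2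
      have := hp.one_lt
      omega
    have hu : IsIntegral Fq[X] (lm * y) := by
      apply IsIntegral.of_pow hp.pos
      rw [hup]
      exact hint.mul hy
    obtain ⟨g, hg⟩ := (Algebra.adjoin_singleton_eq_range_aeval Fq[X] lm ▸ hO _ hu :
      lm * y ∈ (aeval (R := Fq[X]) lm).range)
    have hsint : IsIntegral Fq[X] (aeval lm g.divX) :=
      adjoin_le_integralClosure hint (aeval_mem_adjoin_singleton Fq[X] lm)
    have hgu : lm * y = algebraMap Fq[X] F (g.coeff 0) + lm * aeval lm g.divX := by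
      have h1 := congrArg (aeval lm) (divX_mul_X_add g)
      rw [map_add, map_mul, aeval_X, aeval_C] at h1
      have h2 : aeval lm g = lm * y := hg
      rw [← h2, ← h1]
      ring
    have hgeo := (Commute.all (lm * y) (algebraMap Fq[X] F (g.coeff 0))).geom_sum₂_mul p
    have htint : IsIntegral Fq[X] (∑ i ∈ range p, (lm * y) ^ i *
        algebraMap Fq[X] F (g.coeff 0) ^ (p - 1 - i)) :=
      IsIntegral.sum _ fun i _ => (hu.pow _).mul (isIntegral_algebraMap.pow _)
    have h3 : algebraMap Fq[X] F (g.coeff 0 ^ p) = lm * (lm ^ (p - 1) * y ^ p -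
        aeval lm g.divX * ∑ i ∈ range p, (lm * y) ^ i *
          algebraMap Fq[X] F (g.coeff 0) ^ (p - 1 - i)) := by
      rw [map_pow, mul_sub, ← hup]
      have h4 : lm * y - algebraMap Fq[X] F (g.coeff 0) = lm * aeval lm g.divX := by
        rw [hgu]
        ring
      rw [h4] at hgeo
      linear_combination hgeo
    have h5 : w ∣ g.coeff 0 := hwp.dvd_of_dvd_pow
      (hdvd _ _ (hy.sub (hsint.mul htint)) h3)
    obtain ⟨b, hb⟩ := h5
    have h6 : y = lm ^ (q ^ d - 2) * η⁻¹ * algebraMap Fq[X] F b + aeval lm g.divX := by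
      apply mul_left_cancel₀ hlm
      rw [hgu, hb, map_mul, hε]
      have h7 : lm ^ (q ^ d - 1) = lm * lm ^ (q ^ d - 2) := by
        rw [← pow_succ']
        congr 1
        omega
      rw [h7]
      ring
    rw [h6]
    exact (((hint.pow _).mul hηinv).mul isIntegral_algebraMap).add hsint
  · intro 𝔪 h𝔪 hlam c hc
    by_contra hwc
    obtain ⟨a, b, hab⟩ := (hD.irr.coprime_iff_not_dvd).2 hwc
    have h1 : algebraMap Fq[X] (OF Fq F) w ∈ 𝔪 := by
      have h2 : algebraMap Fq[X] (OF Fq F) w =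
          (⟨lm, hint⟩ : OF Fq F) ^ (q ^ d - 1) * ⟨η⁻¹, hηinv⟩ := Subtype.ext hε
      rw [h2]
      refine Ideal.mul_mem_right _ _ (Ideal.pow_mem_of_mem _ (hlam _ rfl) _ (by omega))
    apply h𝔪.ne_top
    rw [Ideal.eq_top_iff_one, ← map_one (algebraMap Fq[X] (OF Fq F)), ← hab, map_add, map_mul,
      map_mul]
    exact Ideal.add_mem _ (Ideal.mul_mem_left _ _ h1) (Ideal.mul_mem_left _ _ hc)

end Run7.h781.GK
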